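import Pool.Agent.P.MP_7e8329_an.Sharp

set_option autoImplicit false

namespace Pool.Agent.Results.MP_7e8329_an.SameModulus

open MeasureTheory

/-- For an annular region between two `C²` Jordan curves and a harmonic function with distinct
constant boundary values, the round annulus with the same area and the same Dirichlet energy
(conformal modulus) has a quotient that is no larger. -/
theorem result (γ₁ γ₂ : ℝ → ℂ) (s₁ : ContDiff ℝ 2 γ₁) (s₂ : ContDiff ℝ 2 γ₂)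
    (p₁ : Function.Periodic γ₁ 1) (p₂ : Function.Periodic γ₂ 1)
    (i₁ : Set.InjOn γ₁ (Set.Ico 0 1)) (i₂ : Set.InjOn γ₂ (Set.Ico 0 1))
    (d₁ : ∀ t, deriv γ₁ t ≠ 0) (d₂ : ∀ t, deriv γ₂ t ≠ 0)
    (hd : Disjoint (Set.range γ₁) (Set.range γ₂))
    (U : Set ℂ) (ho : IsOpen U) (hc : IsConnected U) (hb : Bornology.IsBounded U)
    (hf : frontier U = Set.range γ₁ ∪ Set.range γ₂)
    (ψ : ℂ → ℝ) (hh : InnerProductSpace.HarmonicOnNhd ψ U)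
    (hψ : ∀ z ∈ frontier U, ContDiffAt ℝ 2 ψ z)
    (c₁ c₂ : ℝ) (hne : c₁ ≠ c₂) (v₁ : ∀ t, ψ (γ₁ t) = c₁) (v₂ : ∀ t, ψ (γ₂ t) = c₂) :
    ∃ a b : ℝ, 0 < a ∧ a < b ∧ Real.pi * (b ^ 2 - a ^ 2) = (volume U).toReal ∧
      ∫ z in U, ‖fderiv ℝ ψ z‖ ^ 2 = 2 * Real.pi * (c₂ - c₁) ^ 2 / Real.log (b / a) ∧
      (1 / a + 1 / b) / Real.log (b / a) ≤
        (∫ z in frontier U, ‖fderiv ℝ ψ z‖ ^ 2 ∂(Measure.hausdorffMeasure 1)) /
          ∫ z in U, ‖fderiv ℝ ψ z‖ ^ 2 :=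
  Pool.Agent.P.MP_7e8329_an.concl ⟨s₁, p₁, i₁, d₁⟩ ⟨s₂, p₂, i₂, d₂⟩ hd ho hc hb hf hh hψ hne v₁ v₂

end Pool.Agent.Results.MP_7e8329_an.SameModulus
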